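import Pool.Agent.N578.Geo.Final

/-!
# Isomorphism of geodetic graphs is as hard as isomorphism of arbitrary graphs

Graphs on `{0, ..., n-1}` are given by their adjacency matrices, coded as bit strings by `bits`.
`PolyTime` is polynomial time on Turing machines (Mathlib's `Turing.TM2ComputableInPolyTime`).
-/

set_option autoImplicit false

namespace Pool.Agent.Results.MP_f934c9_lc.GeodeticIsoComplete

open Pool.Agent.NPC Pool.Agent.N578.Geo SimpleGraph

/-- 1. A polynomial-time function maps (the adjacency matrices of) any two graphs `G`, `H` to those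
of two geodetic graphs `G'`, `H'`, both 2-connected and of diameter at most five, such that `G`, `H`
are isomorphic if and only if `G'`, `H'` are.
2. There is a polynomial-time algorithm which decides isomorphism of any two geodetic graphs if and
only if there is one which decides isomorphism of any two graphs.
3. The same for 2-connected geodetic graphs of diameter at most five. -/
theorem result :
    (∃ f : List Bool → List Bool, PolyTime f ∧
      ∀ (n m : ℕ) (G : SimpleGraph (Fin n)) (H : SimpleGraph (Fin m)),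
        ∃ (n' m' : ℕ) (G' : SimpleGraph (Fin n')) (H' : SimpleGraph (Fin m')),
          f (bits (adjMatrix G, adjMatrix H)) = bits (adjMatrix G', adjMatrix H') ∧
          (IsGeodetic G' ∧ IsTwoConnected G' ∧ ∀ u v, G'.dist u v ≤ 5) ∧
          (IsGeodetic H' ∧ IsTwoConnected H' ∧ ∀ u v, H'.dist u v ≤ 5) ∧
          (Nonempty (G ≃g H) ↔ Nonempty (G' ≃g H'))) ∧
    ((∃ A : List Bool → List Bool, PolyTime A ∧
        ∀ (n m : ℕ) (G : SimpleGraph (Fin n)) (H : SimpleGraph (Fin m)),
          IsGeodetic G → IsGeodetic H →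
            (A (bits (adjMatrix G, adjMatrix H)) = [true] ↔ Nonempty (G ≃g H))) ↔
      ∃ A : List Bool → List Bool, PolyTime A ∧
        ∀ (n m : ℕ) (G : SimpleGraph (Fin n)) (H : SimpleGraph (Fin m)),
          A (bits (adjMatrix G, adjMatrix H)) = [true] ↔ Nonempty (G ≃g H)) ∧
    ((∃ A : List Bool → List Bool, PolyTime A ∧
        ∀ (n m : ℕ) (G : SimpleGraph (Fin n)) (H : SimpleGraph (Fin m)),
          IsGeodetic G → IsTwoConnected G → (∀ u v, G.dist u v ≤ 5) →
          IsGeodetic H → IsTwoConnected H → (∀ u v, H.dist u v ≤ 5) →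
            (A (bits (adjMatrix G, adjMatrix H)) = [true] ↔ Nonempty (G ≃g H))) ↔
      ∃ A : List Bool → List Bool, PolyTime A ∧
        ∀ (n m : ℕ) (G : SimpleGraph (Fin n)) (H : SimpleGraph (Fin m)),
          A (bits (adjMatrix G, adjMatrix H)) = [true] ↔ Nonempty (G ≃g H)) := by
  have key : ∀ A : List Bool → List Bool, PolyTime A →
      (∀ (n m : ℕ) (G : SimpleGraph (Fin n)) (H : SimpleGraph (Fin m)),
          IsGeodetic G → IsTwoConnected G → (∀ u v, G.dist u v ≤ 5) →
          IsGeodetic H → IsTwoConnected H → (∀ u v, H.dist u v ≤ 5) →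
            (A (bits (adjMatrix G, adjMatrix H)) = [true] ↔ Nonempty (G ≃g H))) →
      ∃ A : List Bool → List Bool, PolyTime A ∧
        ∀ (n m : ℕ) (G : SimpleGraph (Fin n)) (H : SimpleGraph (Fin m)),
          A (bits (adjMatrix G, adjMatrix H)) = [true] ↔ Nonempty (G ≃g H) := by
    intro A hA h
    refine ⟨fun x => A (N578.Geo.red x), Pool.Agent.H642R2.TMSim.polyTime_comp hA
      N578.Geo.polyTime_red, fun n m G H => ?_⟩
    obtain ⟨g1, g2, g3⟩ := RG_good G
    obtain ⟨h1, h2, h3⟩ := RG_good H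
    show A (N578.Geo.red (bits (adjMatrix G, adjMatrix H))) = [true] ↔ _
    rw [N578.Geo.red_bits, h _ _ (RG G) (RG H) g1 g2 g3 h1 h2 h3, RG_iso_iff]
  refine ⟨⟨N578.Geo.red, N578.Geo.polyTime_red, fun n m G H => ⟨_, _, RG G, RG H,
    N578.Geo.red_bits G H, RG_good G, RG_good H, (RG_iso_iff G H).symm⟩⟩, ⟨?_, ?_⟩, ⟨?_, ?_⟩⟩
  · rintro ⟨A, hA, h⟩
    exact key A hA fun n m G H g1 _ _ h1 _ _ => h n m G H g1 h1
  · rintro ⟨A, hA, h⟩
    exact ⟨A, hA, fun n m G H _ _ => h n m G H⟩
  · rintro ⟨A, hA, h⟩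
    exact key A hA h
  · rintro ⟨A, hA, h⟩
    exact ⟨A, hA, fun n m G H _ _ _ _ _ _ => h n m G H⟩

end Pool.Agent.Results.MP_f934c9_lc.GeodeticIsoComplete
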